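import Mathlib
import Pool.Agent.Helper844.WP.Defs
import Pool.Agent.Helper844.WP.Main

/-!
# The word problem is undecidable in every variety that contains `W_K`

Let `K` be a constructive field of characteristic zero. If a variety of associative `K`-algebras
contains the variety `W_K`, defined by the identities `x[y,z][t,u]v = 0` and `x[y,z,t]u = 0`, then
it has a finitely presented algebra with undecidable word problem.

Idea of the proof. A recursively enumerable set of natural numbers is coded by a system of
quadratic equations over the integers (the theorem of Davis, Putnam, Robinson and Matiyasevich).
The system is turned into a fixed finite system of linear differential equations of order one, with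
polynomial coefficients, whose derivations are combinations of the operators `x_i ∂/∂x_i`; only the
right side, a monomial, depends on the number that is tested. A finite presentation with generators
`a, b, x_i, t_j, m_e` codes this system: `[t_j, x_i] = ∑ d_{eji} x_i m_e`, `x_i m_e = m_e x_i`,
`a t_j = - ∑ a c_{ej}(x) m_e`, `t_j b = 0`. The word `a x ⋯ x m b` vanishes as soon as the
system with this right side is solvable, in every associative algebra; and if the system is not
solvable, the word does not vanish in an algebra of operators that lies in `W_K`.
-/

set_option autoImplicit false

namespace Pool.Agent.Results.MP_f5ceca_al.ContainsW

open Pool.Agent.Helper844.WP

universe u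

/-- For every constructive field `K` of characteristic zero, and every variety of associative
`K`-algebras that contains the variety `W_K`, the word problem in the variety is undecidable. -/
theorem result (K : Type u) [Field K] [CharZero K] (ν : ℕ → K) (hν : IsConstructive ν)
    (I : Set (FreeAlgebra K ℕ)) (hW : Contains I (W K)) : ¬ WordProblemDecidable ν I :=
  undecidable K ν hν.surjective I hW

end Pool.Agent.Results.MP_f5ceca_al.ContainsW
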